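import Mathlib
import Pool.Agent.Helper69_SER.Stmts

/-!
# SER: COUNT
-/

set_option autoImplicit false

namespace SER.H81

open SER

/-- `X` has a decreasing sequence of submodules `D i` with surjections `D i → G` killing `D (i+1)`. -/
def Bad (R : Type) [Ring R] (G : Type) [AddCommGroup G] [Module R G]
    (X : Type) [AddCommGroup X] [Module R X] : Prop :=
  ∃ (D : ℕ → Submodule R X) (φ : ∀ i, D i →ₗ[R] G), (∀ i, Function.Surjective (φ i)) ∧
    ∀ i x, x ∈ D (i + 1) → ∃ h : x ∈ D i, φ i ⟨x, h⟩ = 0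

theorem bad_sq {R : Type} [Ring R] {G X Y : Type} [AddCommGroup G] [Module R G]
    [AddCommGroup X] [Module R X] [AddCommGroup Y] [Module R Y] (h : Sq R X Y)
    (hX : Bad R G X) : Bad R G Y := by
  obtain ⟨E, ψ, hψ⟩ := h
  obtain ⟨D, φ, hφ, hD⟩ := hX
  have hmem : ∀ i (y : ((D i).comap ψ).map E.subtype), ∃ h : (y : Y) ∈ E, ψ ⟨y, h⟩ ∈ D i := by
    rintro i ⟨y, z, hz, rfl⟩
    exact ⟨z.2, hz⟩
  have hle : ∀ i, ((D i).comap ψ).map E.subtype ≤ E := fun i y hy => (hmem i ⟨y, hy⟩).1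
  let g : ∀ i, (((D i).comap ψ).map E.subtype) →ₗ[R] D i := fun i =>
    (ψ ∘ₗ Submodule.inclusion (hle i)).codRestrict (D i) (fun y => (hmem i y).2)
  refine ⟨fun i => ((D i).comap ψ).map E.subtype, fun i => φ i ∘ₗ g i, ?_, ?_⟩
  · intro i z
    obtain ⟨x, rfl⟩ := hφ i z
    obtain ⟨y, hy⟩ := hψ x
    refine ⟨⟨(y : Y), ⟨y, ?_, rfl⟩⟩, ?_⟩
    · show ψ y ∈ D i
      rw [hy]; exact x.2
    · show φ i (g i _) = φ i x
      congr 1
      exact Subtype.ext hy
  · rintro i y ⟨z, hz, rfl⟩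
    obtain ⟨h1, h2⟩ := hD i (ψ z) hz
    refine ⟨⟨z, h1, rfl⟩, ?_⟩
    show φ i (g i _) = 0
    rw [← h2]
    congr 1

theorem bad_ext {R : Type} [Ring R] {G X : Type} [AddCommGroup G] [Module R G]
    [AddCommGroup X] [Module R X] (A : Submodule R X) (hc : Chain R X)
    (hX : Bad R G X) : Bad R G A ∨ Bad R G (X ⧸ A) := by
  obtain ⟨D, φ, hφ, hD⟩ := hX
  have hanti : ∀ i, D (i + 1) ≤ D i := fun i x hx => (hD i x hx).1
  by_cases hA : ∃ i, D i ≤ A
  · left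
    obtain ⟨i, hi⟩ := hA
    have hle : ∀ k, D (i + k) ≤ A := by
      intro k
      induction k with
      | zero => exact hi
      | succ k ih => exact (hanti (i + k)).trans ih
    let g : ∀ k, ((D (i + k)).comap A.subtype) →ₗ[R] D (i + k) := fun k =>
      (A.subtype ∘ₗ ((D (i + k)).comap A.subtype).subtype).codRestrict (D (i + k)) (fun y => y.2)
    refine ⟨fun k => (D (i + k)).comap A.subtype, fun k => φ (i + k) ∘ₗ g k, ?_, ?_⟩
    · intro k z
      obtain ⟨x, rfl⟩ := hφ (i + k) z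
      refine ⟨⟨⟨x, hle k x.2⟩, x.2⟩, ?_⟩
      show φ (i + k) (g k _) = φ (i + k) x
      congr 1
    · intro k y hy
      obtain ⟨h1, h2⟩ := hD (i + k) (y : X) hy
      exact ⟨h1, h2⟩
  · right
    have hAD : ∀ i, A ≤ D i := fun i => (hc A (D i)).resolve_right (fun h => hA ⟨i, h⟩)
    have hex : ∀ i, ∃ ψ : ((D i).map A.mkQ) →ₗ[R] G, ∀ (x : X) (hx : x ∈ D i),
        ψ ⟨A.mkQ x, ⟨x, hx, rfl⟩⟩ = φ i ⟨x, hx⟩ := by
      intro i
      let g : D i →ₗ[R] ((D i).map A.mkQ) :=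
        (A.mkQ ∘ₗ (D i).subtype).codRestrict _ (fun y => ⟨y, y.2, rfl⟩)
      have hg : Function.Surjective g := by
        rintro ⟨_, x, hx, rfl⟩
        exact ⟨⟨x, hx⟩, rfl⟩
      have hk : LinearMap.ker g ≤ LinearMap.ker (φ i) := by
        intro x hx
        rw [LinearMap.mem_ker] at hx ⊢
        have h1 : A.mkQ (x : X) = 0 := congrArg Subtype.val hx
        rw [Submodule.mkQ_apply, Submodule.Quotient.mk_eq_zero] at h1
        obtain ⟨h2, h3⟩ := hD i x (hAD (i + 1) h1)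
        exact h3
      refine ⟨(LinearMap.ker g).liftQ (φ i) hk ∘ₗ (g.quotKerEquivOfSurjective hg).symm.toLinearMap,
        ?_⟩
      intro x hx
      have h4 : (⟨A.mkQ x, ⟨x, hx, rfl⟩⟩ : (D i).map A.mkQ) = g ⟨x, hx⟩ := rfl
      rw [LinearMap.comp_apply, h4]
      have h5 : (g.quotKerEquivOfSurjective hg).symm (g ⟨x, hx⟩) =
          (LinearMap.ker g).mkQ ⟨x, hx⟩ := by
        rw [LinearEquiv.symm_apply_eq]
        rfl
      show (LinearMap.ker g).liftQ (φ i) hk ((g.quotKerEquivOfSurjective hg).symm (g ⟨x, hx⟩)) = _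
      rw [h5]
      rfl
    choose ψ hψ using hex
    refine ⟨fun i => (D i).map A.mkQ, ψ, ?_, ?_⟩
    · intro i z
      obtain ⟨x, rfl⟩ := hφ i z
      exact ⟨⟨A.mkQ x, ⟨x, x.2, rfl⟩⟩, hψ i x x.2⟩
    · rintro i _ ⟨x, hx, rfl⟩
      obtain ⟨h1, h2⟩ := hD i x hx
      refine ⟨⟨x, h1, rfl⟩, ?_⟩
      rw [hψ i x h1, h2]

theorem sclass_bad {R : Type} [Ring R] (G : Type) [AddCommGroup G] [Module R G] :
    SClass R (fun X => ¬ Bad R G X) where
  sq := fun X Y hY hXY hX => hY (bad_sq hXY hX)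
  ext := fun X A hc h1 h2 hX => by
    rcases bad_ext A hc hX with h | h
    · exact h1 h
    · exact h2 h

theorem bad_self {R : Type} [Ring R] {V : Type} [AddCommGroup V] [Module R V] (f : V →ₗ[R] V)
    (hf : Function.Injective f) : Bad R (V ⧸ LinearMap.range f) V := by
  have hfi : ∀ i : ℕ, Function.Injective (f ^ i : V →ₗ[R] V) := by
    intro i
    induction i with
    | zero => exact fun a b h => h
    | succ i ih =>
      intro a b h
      rw [pow_succ, Module.End.mul_apply, Module.End.mul_apply] at h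
      exact hf (ih h)
  let e : ∀ i : ℕ, V ≃ₗ[R] LinearMap.range (f ^ i : V →ₗ[R] V) := fun i =>
    LinearEquiv.ofInjective (f ^ i : V →ₗ[R] V) (hfi i)
  refine ⟨fun i => LinearMap.range (f ^ i : V →ₗ[R] V),
    fun i => (LinearMap.range f).mkQ ∘ₗ (e i).symm.toLinearMap, ?_, ?_⟩
  · intro i z
    obtain ⟨v, rfl⟩ := (LinearMap.range f).mkQ_surjective z
    refine ⟨e i v, ?_⟩
    show (LinearMap.range f).mkQ ((e i).symm (e i v)) = _
    rw [LinearEquiv.symm_apply_apply]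
  · rintro i _ ⟨v, rfl⟩
    have h1 : (f ^ (i + 1) : V →ₗ[R] V) v = (f ^ i : V →ₗ[R] V) (f v) := by
      rw [pow_succ, Module.End.mul_apply]
    refine ⟨⟨f v, h1.symm⟩, ?_⟩
    have h2 : (⟨(f ^ (i + 1) : V →ₗ[R] V) v, ⟨f v, h1.symm⟩⟩ :
        LinearMap.range (f ^ i : V →ₗ[R] V)) = e i (f v) := Subtype.ext h1
    show (LinearMap.range f).mkQ ((e i).symm ⟨(f ^ (i + 1) : V →ₗ[R] V) v, _⟩) = 0
    rw [h2, LinearEquiv.symm_apply_apply, Submodule.mkQ_apply, Submodule.Quotient.mk_eq_zero]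
    exact ⟨v, rfl⟩

theorem count : CountStmt := by
  intro R _ Q _ _ V _ _ hG f hf
  by_contra hn
  refine hG (fun X => ¬ Bad R (V ⧸ LinearMap.range f) X) (sclass_bad _) ?_ (bad_self f hf)
  rintro ⟨D, φ, hφ, -⟩
  exact hn ⟨D 0, φ 0, hφ 0⟩

end SER.H81
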